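import Pool.Agent.V11327.WCperc

/-!
# MP_6c3571_pr : the weighted Cheeger bound for the heavy-cluster threshold fails
-/

open MeasureTheory
open scoped ENNReal NNReal

namespace Pool.Agent.Results.MP_6c3571_pr.CheegerBoundFails

open Pool.Agent.V11327.WC

/-- **MP_6c3571_pr, Q1 disproved.**  There are an infinite connected locally finite graph `G` and
a closed transitive group `Γ` of automorphisms of `G` with
`p_h(G,Γ) > 1 / (Φ^w_V(G) + 1)`; in fact `1/(Φ^w_V + 1) ≤ 1/18 < 1/16 ≤ p_h`. -/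
theorem result :
    ∃ (V : Type) (G : SimpleGraph V) (Γ : Subgroup (G ≃g G)) (o : V),
      Infinite V ∧ G.Connected ∧ (∀ x : V, (G.neighborSet x).Finite) ∧
      IsClosedGroup Γ ∧ IsTransitiveGroup Γ ∧
      1 / (cheeger Γ o + 1) ≤ 1 / 18 ∧ (1 / 16 : ℝ) ≤ pHeavy Γ o ∧
      1 / (cheeger Γ o + 1) < ENNReal.ofReal (pHeavy Γ o) := by
  have h1 : 1 / (cheeger Gam root + 1) ≤ 1 / 18 := by
    apply ENNReal.div_le_div_left
    calc (18 : ℝ≥0∞) = 17 + 1 := by norm_num
      _ ≤ cheeger Gam root + 1 := by gcongr; exact cheeger_ge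
  refine ⟨TV, T, Gam, root, inferInstance, connected, locallyFinite, closed, transitive, h1,
    pHeavy_ge, ?_⟩
  have h2 : (1 / 18 : ℝ≥0∞) < ENNReal.ofReal (1 / 16) := by
    have : (1 / 18 : ℝ≥0∞) = ENNReal.ofReal (1 / 18) := by
      rw [ENNReal.ofReal_div_of_pos (by norm_num)]
      norm_num
    rw [this]
    exact (ENNReal.ofReal_lt_ofReal_iff (by norm_num)).2 (by norm_num)
  exact lt_of_le_of_lt h1 (lt_of_lt_of_le h2 (ENNReal.ofReal_le_ofReal pHeavy_ge))

end Pool.Agent.Results.MP_6c3571_pr.CheegerBoundFails
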